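import Pool.Agent.Q186.SD.Stmts

set_option autoImplicit false

/-!
The strong diameter two property (helper186).
-/

noncomputable section

namespace Pool.Agent.Q186.SD

open Filter Topology Set

universe u v

set_option linter.unusedSectionVars false

variable {M : Type u} [MetricSpace M] {Y : Type v} [NormedAddCommGroup Y] [NormedSpace ℝ Y]

/-- the Lipschitz maps `M → Y` which vanish at `o` -/
def LipS (M : Type u) [MetricSpace M] (Y : Type v) [NormedAddCommGroup Y] [NormedSpace ℝ Y]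
    (o : M) : Submodule ℝ (M → Y) where
  carrier := {f | f o = 0 ∧ ∃ C : ℝ, ∀ x y, ‖f x - f y‖ ≤ C * dist x y}
  add_mem' := by
    rintro f g ⟨f0, C, hC⟩ ⟨g0, D, hD⟩
    refine ⟨by simp [f0, g0], C + D, fun x y => ?_⟩
    have h1 : (f + g) x - (f + g) y = (f x - f y) + (g x - g y) := by
      simp only [Pi.add_apply]; abel
    rw [h1, add_mul]
    exact (norm_add_le _ _).trans (add_le_add (hC x y) (hD x y))
  zero_mem' := ⟨rfl, 0, fun x y => by simp⟩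
  smul_mem' := by
    rintro a f ⟨f0, C, hC⟩
    refine ⟨by simp [f0], |a| * C, fun x y => ?_⟩
    have h1 : (a • f) x - (a • f) y = a • (f x - f y) := by
      simp only [Pi.smul_apply, smul_sub]
    rw [h1, norm_smul, Real.norm_eq_abs, mul_assoc]
    exact mul_le_mul_of_nonneg_left (hC x y) (abs_nonneg a)

/-- the Lipschitz norm: supremum of the slopes -/
def lnorm (f : M → Y) : ℝ := sSup {r | ∃ x y, x ≠ y ∧ r = ‖f x - f y‖ / dist x y}

theorem lnorm_le {f : M → Y} {C : ℝ} (hC : 0 ≤ C) (h : ∀ x y, ‖f x - f y‖ ≤ C * dist x y) :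
    lnorm f ≤ C := by
  refine Real.sSup_le ?_ hC
  rintro r ⟨x, y, hxy, rfl⟩
  rw [div_le_iff₀ (dist_pos.2 hxy)]
  exact h x y

theorem le_lnorm {f : M → Y} (hf : ∃ C : ℝ, ∀ x y, ‖f x - f y‖ ≤ C * dist x y) {x y : M}
    (hxy : x ≠ y) : ‖f x - f y‖ / dist x y ≤ lnorm f := by
  obtain ⟨C, hC⟩ := hf
  refine le_csSup ⟨C, ?_⟩ ⟨x, y, hxy, rfl⟩
  rintro r ⟨x, y, hxy, rfl⟩
  rw [div_le_iff₀ (dist_pos.2 hxy)]
  exact hC x y

theorem slope_le {f : M → Y} (hf : ∃ C : ℝ, ∀ x y, ‖f x - f y‖ ≤ C * dist x y) {D : ℝ}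
    (hD : lnorm f ≤ D) (x y : M) : ‖f x - f y‖ ≤ D * dist x y := by
  by_cases hxy : x = y
  · subst hxy; simp
  · have h1 := (le_lnorm hf hxy).trans hD
    rwa [div_le_iff₀ (dist_pos.2 hxy)] at h1

/-- linear functionals of norm one on the space of Lipschitz maps -/
def IsNormOne {o : M} (φ : LipS M Y o →ₗ[ℝ] ℝ) : Prop :=
  (∀ f : LipS M Y o, |φ f| ≤ lnorm (f : M → Y)) ∧
    ∀ ε > 0, ∃ f : LipS M Y o, lnorm (f : M → Y) ≤ 1 ∧ 1 - ε < φ f

/-- slices of the closed unit ball -/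
def slice {o : M} (φ : LipS M Y o →ₗ[ℝ] ℝ) (α : ℝ) : Set (LipS M Y o) :=
  {f | lnorm (f : M → Y) ≤ 1 ∧ 1 - α < φ f}

/-- convex combinations of sets -/
def comb {o : M} {n : ℕ} (l : Fin n → ℝ) (S : Fin n → Set (LipS M Y o)) : Set (LipS M Y o) :=
  {u | ∃ g : Fin n → LipS M Y o, (∀ i, g i ∈ S i) ∧ u = ∑ i, l i • g i}

/-- diameter with respect to the Lipschitz norm -/
def diam {o : M} (C : Set (LipS M Y o)) : ℝ :=
  sSup {r | ∃ a ∈ C, ∃ b ∈ C, r = lnorm ((a - b : LipS M Y o) : M → Y)}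

/-- sums of Lipschitz maps with disjoint supports -/
theorem sum_lip {w : ℕ → M → Y} {A : ℕ → Set M} {C : ℝ} (hC : 0 ≤ C)
    (hd : ∀ i j, i ≠ j → ∀ x, ¬ (x ∈ A i ∧ x ∈ A j)) (hw : ∀ k x, x ∉ A k → w k x = 0)
    (hL : ∀ k x y, ‖w k x - w k y‖ ≤ C * dist x y) (σ : ℕ → ℝ) (hσ : ∀ k, |σ k| ≤ 1)
    (F : Finset ℕ) (x y : M) :
    ‖(∑ k ∈ F, σ k • w k x) - ∑ k ∈ F, σ k • w k y‖ ≤ 2 * C * dist x y := by
  classical
  rw [← Finset.sum_sub_distrib]
  refine (norm_sum_le _ _).trans ?_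
  have h1 : ∀ k ∈ F, ‖σ k • w k x - σ k • w k y‖ ≤
      if x ∈ A k ∨ y ∈ A k then C * dist x y else 0 := by
    intro k _
    rw [← smul_sub, norm_smul, Real.norm_eq_abs]
    by_cases h : x ∈ A k ∨ y ∈ A k
    · rw [if_pos h]
      calc |σ k| * ‖w k x - w k y‖ ≤ 1 * ‖w k x - w k y‖ :=
            mul_le_mul_of_nonneg_right (hσ k) (norm_nonneg _)
        _ ≤ C * dist x y := by rw [one_mul]; exact hL k x y
    · rw [if_neg h]
      push Not at h
      rw [hw k x h.1, hw k y h.2]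
      simp
  refine (Finset.sum_le_sum h1).trans ?_
  rw [← Finset.sum_filter, Finset.sum_const, nsmul_eq_mul]
  have h2 : (F.filter (fun k => x ∈ A k ∨ y ∈ A k)).card ≤ 2 := by
    rw [Finset.filter_or]
    refine (Finset.card_union_le _ _).trans ?_
    have h3 : ∀ x : M, (F.filter (fun k => x ∈ A k)).card ≤ 1 := by
      intro x
      rw [Finset.card_le_one]
      intro a ha b hb
      by_contra hab
      exact hd a b hab x ⟨(Finset.mem_filter.1 ha).2, (Finset.mem_filter.1 hb).2⟩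
    have := h3 x
    have := h3 y
    omega
  have h4 : ((F.filter (fun k => x ∈ A k ∨ y ∈ A k)).card : ℝ) ≤ 2 := by exact_mod_cast h2
  calc _ ≤ 2 * (C * dist x y) := mul_le_mul_of_nonneg_right h4 (by positivity)
    _ = _ := by ring

theorem weak_null {o : M} {φ : LipS M Y o →ₗ[ℝ] ℝ}
    (hφ : ∀ f : LipS M Y o, |φ f| ≤ lnorm (f : M → Y))
    {w : ℕ → LipS M Y o} {A : ℕ → Set M} {C : ℝ} (hC : 0 ≤ C)
    (hd : ∀ i j, i ≠ j → ∀ x, ¬ (x ∈ A i ∧ x ∈ A j))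
    (hw : ∀ k x, x ∉ A k → (w k : M → Y) x = 0)
    (hL : ∀ k x y, ‖(w k : M → Y) x - (w k : M → Y) y‖ ≤ C * dist x y) :
    Tendsto (fun k => φ (w k)) atTop (𝓝 0) := by
  have h1 : ∀ F : Finset ℕ, ∑ k ∈ F, |φ (w k)| ≤ 2 * C := by
    intro F
    set σ : ℕ → ℝ := fun k => SignType.sign (φ (w k)) with hσ
    have h2 : ∑ k ∈ F, |φ (w k)| = φ (∑ k ∈ F, σ k • w k) := by
      rw [map_sum]
      refine Finset.sum_congr rfl fun k _ => ?_
      rw [map_smul, smul_eq_mul]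
      exact (sign_mul_self _).symm
    rw [h2]
    refine (le_abs_self _).trans ((hφ _).trans (lnorm_le (by positivity) fun x y => ?_))
    have h3 : ∀ x, ((∑ k ∈ F, σ k • w k : LipS M Y o) : M → Y) x =
        ∑ k ∈ F, σ k • (w k : M → Y) x := by
      intro x
      rw [Submodule.coe_sum, Finset.sum_apply]
      rfl
    rw [h3, h3]
    refine sum_lip hC hd hw hL σ (fun k => ?_) F x y
    rw [hσ]
    rcases lt_trichotomy (φ (w k)) 0 with h | h | h
    · simp [h]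
    · simp [h]
    · simp [h]
  have h2 : Summable (fun k => |φ (w k)|) :=
    summable_of_sum_le (fun k => abs_nonneg _) h1
  have h3 := h2.tendsto_atTop_zero
  exact (tendsto_zero_iff_abs_tendsto_zero _).2 h3

theorem core (hA : TaskAnn.{u}) (hF : TaskFlat.{u, v}) (o : M)
    (hM : (∀ R : ℝ, ∃ x y : M, R < dist x y) ∨ (∀ ε : ℝ, 0 < ε → ∃ x y : M, x ≠ y ∧ dist x y < ε))
    {n : ℕ} (hn : 0 < n) (l : Fin n → ℝ) (hl : ∀ i, 0 < l i) (hl1 : ∑ i, l i = 1)
    (φ : Fin n → (LipS M Y o →ₗ[ℝ] ℝ)) (hφ : ∀ i, IsNormOne (φ i)) (α : Fin n → ℝ)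
    (hα : ∀ i, 0 < α i) {ε : ℝ} (hε : 0 < ε) :
    ∃ a ∈ comb l (fun i => slice (φ i) (α i)), ∃ b ∈ comb l (fun i => slice (φ i) (α i)),
      2 - ε < lnorm ((a - b : LipS M Y o) : M → Y) := by
  classical
  -- a unit vector
  obtain ⟨e, he⟩ : ∃ e : Y, ‖e‖ = 1 := by
    obtain ⟨f, hf1, hf2⟩ := (hφ ⟨0, hn⟩).2 (1 / 2) (by norm_num)
    have hf0 : f ≠ 0 := by
      rintro rfl
      rw [map_zero] at hf2
      norm_num at hf2
    obtain ⟨x, hx⟩ : ∃ x, (f : M → Y) x ≠ 0 := by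
      by_contra h
      push Not at h
      exact hf0 (Subtype.ext (funext h))
    exact ⟨‖(f : M → Y) x‖⁻¹ • (f : M → Y) x, by
      rw [norm_smul, norm_inv, norm_norm, inv_mul_cancel₀ (norm_ne_zero_iff.2 hx)]⟩
  choose f hf1 hf2 using fun i => (hφ i).2 (α i) (hα i)
  have hflip : ∀ i x y, ‖(f i : M → Y) x - (f i : M → Y) y‖ ≤ dist x y := by
    intro i x y
    have := slope_le (f i).2.2 (hf1 i) x y
    rwa [one_mul] at this
  -- the small number
  obtain ⟨δ, hδ0, hδ1, hδ2, hδ3⟩ : ∃ δ : ℝ, 0 < δ ∧ δ < 1 ∧ (∀ i, (1 + δ) * (1 - α i) < φ i (f i)) ∧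
      (1 + δ) * (2 - ε) < 2 * (1 - δ) := by
    have h1 : ∀ i, ∀ᶠ δ in 𝓝[>] (0 : ℝ), (1 + δ) * (1 - α i) < φ i (f i) := by
      intro i
      have hc : Tendsto (fun δ : ℝ => (1 + δ) * (1 - α i)) (𝓝 0) (𝓝 ((1 + 0) * (1 - α i))) :=
        (Continuous.tendsto (by fun_prop) 0)
      have h2 : (1 + 0) * (1 - α i) < φ i (f i) := by rw [add_zero, one_mul]; exact hf2 i
      exact (hc.mono_left nhdsWithin_le_nhds).eventually_lt_const h2
    have h2 : ∀ᶠ δ in 𝓝[>] (0 : ℝ), (1 + δ) * (2 - ε) < 2 * (1 - δ) := by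
      have hc : Tendsto (fun δ : ℝ => 2 * (1 - δ) - (1 + δ) * (2 - ε)) (𝓝 0)
          (𝓝 (2 * (1 - 0) - (1 + 0) * (2 - ε))) := (Continuous.tendsto (by fun_prop) 0)
      have h3 : 0 < 2 * (1 - 0) - (1 + 0) * (2 - ε) := by linarith
      filter_upwards [(hc.mono_left nhdsWithin_le_nhds).eventually_const_lt h3] with δ hδ
      linarith
    have h3 : ∀ᶠ δ in 𝓝[>] (0 : ℝ), 0 < δ ∧ δ < 1 :=
      Ioo_mem_nhdsGT (by norm_num : (0 : ℝ) < 1)
    obtain ⟨δ, a1, a2, a3⟩ := ((eventually_all.2 h1).and (h2.and h3)).exists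
    exact ⟨δ, a3.1, a3.2, a1, a2⟩
  obtain ⟨lam, hlam, hflat⟩ := hF δ hδ0 hδ1
  obtain ⟨c, z, hcz, hdis⟩ := hA M hM lam hlam
  choose θ h hθ hsupp hbump hest using fun k => hflat M (c k) (z k) (hcz k)
  -- the base point is in at most one annulus
  obtain ⟨K0, hK0⟩ : ∃ K0 : ℕ, ∀ k ≥ K0, ¬ Ann lam (c k) (z k) o := by
    by_cases hex : ∃ k1, Ann lam (c k1) (z k1) o
    · obtain ⟨k1, hk1⟩ := hex
      exact ⟨k1 + 1, fun k hk hka => hdis k k1 (by omega) o ⟨hka, hk1⟩⟩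
    · push Not at hex
      exact ⟨0, fun k _ => hex k⟩
  set G : Fin n → ℕ → ℝ → M → Y := fun i k s x =>
    (f i : M → Y) (c k) + θ k x • ((f i : M → Y) x - (f i : M → Y) (c k)) + h k x • (s • e) with hG
  have hGest : ∀ i k s, |s| = 1 → ∀ x y, ‖G i k s x - G i k s y‖ ≤ (1 + δ) * dist x y := by
    intro i k s hs x y
    exact hest k Y (f i : M → Y) (hflip i) (s • e) (by rw [norm_smul, Real.norm_eq_abs, hs, he, one_mul]) x y
  have hGoff : ∀ i k s x, ¬ Ann lam (c k) (z k) x → G i k s x = (f i : M → Y) x := by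
    intro i k s x hx
    obtain ⟨a1, a2⟩ := hsupp k x hx
    show (f i : M → Y) (c k) + θ k x • ((f i : M → Y) x - (f i : M → Y) (c k)) + h k x • (s • e) = _
    rw [a1, a2]
    simp
  have hGmem : ∀ i k s, |s| = 1 → K0 ≤ k → G i k s ∈ LipS M Y o := by
    intro i k s hs hk
    refine ⟨?_, 1 + δ, hGest i k s hs⟩
    rw [hGoff i k s o (hK0 k hk)]
    exact (f i).2.1
  have hWlip : ∀ i k s, |s| = 1 → ∀ x y, ‖(G i k s x - (f i : M → Y) x) -
      (G i k s y - (f i : M → Y) y)‖ ≤ 3 * dist x y := by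
    intro i k s hs x y
    have h1 : (G i k s x - (f i : M → Y) x) - (G i k s y - (f i : M → Y) y) =
        (G i k s x - G i k s y) - ((f i : M → Y) x - (f i : M → Y) y) := by abel
    rw [h1]
    refine (norm_sub_le _ _).trans ?_
    have h2 := hGest i k s hs x y
    have h3 := hflip i x y
    have h4 : δ * dist x y ≤ 1 * dist x y := mul_le_mul_of_nonneg_right hδ1.le dist_nonneg
    nlinarith [dist_nonneg (x := x) (y := y)]
  -- the elements
  set g : Fin n → ℕ → ℝ → LipS M Y o := fun i k s =>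
    if hs : |s| = 1 then ⟨G i (K0 + k) s, hGmem i (K0 + k) s hs (Nat.le_add_right _ _)⟩ else 0 with hg
  have hgG : ∀ i k s, |s| = 1 → ((g i k s : LipS M Y o) : M → Y) = G i (K0 + k) s := by
    intro i k s hs
    show (((if hs : |s| = 1 then (⟨G i (K0 + k) s, hGmem i (K0 + k) s hs (Nat.le_add_right _ _)⟩ :
      LipS M Y o) else 0) : LipS M Y o) : M → Y) = _
    rw [dif_pos hs]
  have hlim : ∀ i s, |s| = 1 → Tendsto (fun k => φ i (g i k s - f i)) atTop (𝓝 0) := by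
    intro i s hs
    refine weak_null (φ := φ i) (hφ i).1 (w := fun k => g i k s - f i)
      (A := fun k => {x | Ann lam (c (K0 + k)) (z (K0 + k)) x}) (C := 3) (by norm_num) ?_ ?_ ?_
    · intro i' j' hij x hx
      exact hdis (K0 + i') (K0 + j') (by omega) x hx
    · intro k x hx
      show ((g i k s : LipS M Y o) : M → Y) x - (f i : M → Y) x = 0
      rw [hgG i k s hs, hGoff i (K0 + k) s x hx, sub_self]
    · intro k x y
      show ‖(((g i k s : LipS M Y o) : M → Y) x - (f i : M → Y) x) -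
        (((g i k s : LipS M Y o) : M → Y) y - (f i : M → Y) y)‖ ≤ _
      rw [hgG i k s hs]
      exact hWlip i (K0 + k) s hs x y
  have hev : ∀ i s, |s| = 1 → ∀ᶠ k in atTop, (1 + δ) * (1 - α i) < φ i (g i k s) := by
    intro i s hs
    have h1 : (1 + δ) * (1 - α i) - φ i (f i) < 0 := by linarith [hδ2 i]
    filter_upwards [(hlim i s hs).eventually_const_lt h1] with k hk
    rw [map_sub] at hk
    linarith
  obtain ⟨k, hk⟩ : ∃ k, ∀ i, (1 + δ) * (1 - α i) < φ i (g i k 1) ∧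
      (1 + δ) * (1 - α i) < φ i (g i k (-1)) :=
    (eventually_all.2 fun i => (hev i 1 (by simp)).and (hev i (-1) (by simp))).exists
  have hδp : (0 : ℝ) < 1 + δ := by linarith
  have hsl : ∀ i s, |s| = 1 → (1 + δ) * (1 - α i) < φ i (g i k s) →
      (1 + δ)⁻¹ • g i k s ∈ slice (φ i) (α i) := by
    intro i s hs hgt
    refine ⟨lnorm_le zero_le_one fun x y => ?_, ?_⟩
    · show ‖(1 + δ)⁻¹ • ((g i k s : LipS M Y o) : M → Y) x -
        (1 + δ)⁻¹ • ((g i k s : LipS M Y o) : M → Y) y‖ ≤ _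
      rw [hgG i k s hs, ← smul_sub, norm_smul, Real.norm_eq_abs, abs_of_pos (inv_pos.2 hδp),
        inv_mul_le_iff₀ hδp, one_mul]
      exact hGest i (K0 + k) s hs x y
    · rw [map_smul, smul_eq_mul, lt_inv_mul_iff₀ hδp]
      exact hgt
  refine ⟨∑ i, l i • ((1 + δ)⁻¹ • g i k 1), ⟨fun i => (1 + δ)⁻¹ • g i k 1, fun i =>
    hsl i 1 (by simp) (hk i).1, rfl⟩, ∑ i, l i • ((1 + δ)⁻¹ • g i k (-1)),
    ⟨fun i => (1 + δ)⁻¹ • g i k (-1), fun i => hsl i (-1) (by simp) (hk i).2, rfl⟩, ?_⟩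
  set D : LipS M Y o := (∑ i, l i • ((1 + δ)⁻¹ • g i k 1)) - ∑ i, l i • ((1 + δ)⁻¹ • g i k (-1)) with hD
  have hDx : ∀ x, (D : M → Y) x = (2 * (1 + δ)⁻¹ * h (K0 + k) x) • e := by
    intro x
    have h1 : (D : M → Y) x = ∑ i, l i • ((1 + δ)⁻¹ •
        (((g i k 1 : LipS M Y o) : M → Y) x - ((g i k (-1) : LipS M Y o) : M → Y) x)) := by
      rw [hD, ← Finset.sum_sub_distrib, Submodule.coe_sum, Finset.sum_apply]
      refine Finset.sum_congr rfl fun i _ => ?_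
      show l i • ((1 + δ)⁻¹ • ((g i k 1 : LipS M Y o) : M → Y) x) -
        l i • ((1 + δ)⁻¹ • ((g i k (-1) : LipS M Y o) : M → Y) x) = _
      rw [← smul_sub, ← smul_sub]
    rw [h1]
    have h2 : ∀ i, ((g i k 1 : LipS M Y o) : M → Y) x - ((g i k (-1) : LipS M Y o) : M → Y) x =
        (2 * h (K0 + k) x) • e := by
      intro i
      rw [hgG i k 1 (by simp), hgG i k (-1) (by simp)]
      show ((f i : M → Y) (c (K0 + k)) + θ (K0 + k) x • ((f i : M → Y) x -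
        (f i : M → Y) (c (K0 + k))) + h (K0 + k) x • ((1 : ℝ) • e)) -
        ((f i : M → Y) (c (K0 + k)) + θ (K0 + k) x • ((f i : M → Y) x -
        (f i : M → Y) (c (K0 + k))) + h (K0 + k) x • ((-1 : ℝ) • e)) = _
      rw [add_sub_add_left_eq_sub, one_smul, neg_one_smul, smul_neg, sub_neg_eq_add, two_mul,
        add_smul]
    simp only [h2]
    rw [← Finset.sum_smul, hl1, one_smul, smul_smul]
    congr 1
    ring
  have hDlip := D.2.2
  have h1 := le_lnorm hDlip (hcz (K0 + k)).symm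
  refine lt_of_lt_of_le ?_ h1
  rw [hDx, hDx, ← sub_smul, norm_smul, he, mul_one, Real.norm_eq_abs, ← mul_sub, abs_mul,
    lt_div_iff₀ (dist_pos.2 (hcz (K0 + k)).symm), abs_of_pos (by positivity)]
  have h2 := hbump (K0 + k)
  rw [dist_comm (z (K0 + k)) (c (K0 + k))]
  have h3 : 0 < dist (c (K0 + k)) (z (K0 + k)) := dist_pos.2 (hcz _)
  have h4 : 2 - ε < 2 * (1 + δ)⁻¹ * (1 - δ) := by
    have : 2 * (1 + δ)⁻¹ * (1 - δ) = (2 * (1 - δ)) / (1 + δ) := by
      rw [div_eq_mul_inv]; ring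
    rw [this, lt_div_iff₀ hδp]
    linarith
  calc (2 - ε) * dist (c (K0 + k)) (z (K0 + k))
      < 2 * (1 + δ)⁻¹ * (1 - δ) * dist (c (K0 + k)) (z (K0 + k)) := mul_lt_mul_of_pos_right h4 h3
    _ = 2 * (1 + δ)⁻¹ * ((1 - δ) * dist (c (K0 + k)) (z (K0 + k))) := by ring
    _ ≤ 2 * (1 + δ)⁻¹ * |h (K0 + k) (z (K0 + k)) - h (K0 + k) (c (K0 + k))| :=
        mul_le_mul_of_nonneg_left h2 (by positivity)

theorem comb_le {o : M} {n : ℕ} {l : Fin n → ℝ} (hl : ∀ i, 0 < l i) (hl1 : ∑ i, l i = 1)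
    {φ : Fin n → (LipS M Y o →ₗ[ℝ] ℝ)} {α : Fin n → ℝ} {a b : LipS M Y o}
    (ha : a ∈ comb l (fun i => slice (φ i) (α i))) (hb : b ∈ comb l (fun i => slice (φ i) (α i))) :
    lnorm ((a - b : LipS M Y o) : M → Y) ≤ 2 := by
  have key : ∀ a ∈ comb l (fun i => slice (φ i) (α i)), ∀ x y,
      ‖((a : LipS M Y o) : M → Y) x - (a : M → Y) y‖ ≤ dist x y := by
    rintro a ⟨g, hg, rfl⟩ x y
    rw [Submodule.coe_sum, Finset.sum_apply, Finset.sum_apply, ← Finset.sum_sub_distrib]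
    refine (norm_sum_le _ _).trans ?_
    have h1 : ∀ i ∈ Finset.univ, ‖((l i • g i : LipS M Y o) : M → Y) x -
        ((l i • g i : LipS M Y o) : M → Y) y‖ ≤ l i * dist x y := by
      intro i _
      show ‖l i • (g i : M → Y) x - l i • (g i : M → Y) y‖ ≤ _
      rw [← smul_sub, norm_smul, Real.norm_eq_abs, abs_of_pos (hl i)]
      have := slope_le (g i).2.2 (hg i).1 x y
      rw [one_mul] at this
      exact mul_le_mul_of_nonneg_left this (hl i).le
    refine (Finset.sum_le_sum h1).trans ?_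
    rw [← Finset.sum_mul, hl1, one_mul]
  refine lnorm_le (by norm_num) fun x y => ?_
  show ‖((a : M → Y) x - (b : M → Y) x) - ((a : M → Y) y - (b : M → Y) y)‖ ≤ _
  have h1 : ((a : M → Y) x - (b : M → Y) x) - ((a : M → Y) y - (b : M → Y) y) =
      ((a : M → Y) x - (a : M → Y) y) - ((b : M → Y) x - (b : M → Y) y) := by abel
  rw [h1]
  refine (norm_sub_le _ _).trans ?_
  linarith [key a ha x y, key b hb x y]

theorem final (hA : TaskAnn.{u}) (hF : TaskFlat.{u, v}) (o : M)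
    (hM : (∀ R : ℝ, ∃ x y : M, R < dist x y) ∨ (∀ ε : ℝ, 0 < ε → ∃ x y : M, x ≠ y ∧ dist x y < ε))
    {n : ℕ} (hn : 0 < n) (l : Fin n → ℝ) (hl : ∀ i, 0 < l i) (hl1 : ∑ i, l i = 1)
    (φ : Fin n → (LipS M Y o →ₗ[ℝ] ℝ)) (hφ : ∀ i, IsNormOne (φ i)) (α : Fin n → ℝ)
    (hα : ∀ i, 0 < α i) : diam (comb l (fun i => slice (φ i) (α i))) = 2 := by
  have hbd : BddAbove {r | ∃ a ∈ comb l (fun i => slice (φ i) (α i)),
      ∃ b ∈ comb l (fun i => slice (φ i) (α i)), r = lnorm ((a - b : LipS M Y o) : M → Y)} := by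
    refine ⟨2, ?_⟩
    rintro r ⟨a, ha, b, hb, rfl⟩
    exact comb_le hl hl1 ha hb
  refine le_antisymm ?_ ?_
  · refine Real.sSup_le ?_ (by norm_num)
    rintro r ⟨a, ha, b, hb, rfl⟩
    exact comb_le hl hl1 ha hb
  · refine le_of_forall_pos_lt_add fun ε hε => ?_
    obtain ⟨a, ha, b, hb, hab⟩ := core hA hF o hM hn l hl hl1 φ hφ α hα hε
    have h1 := le_csSup hbd ⟨a, ha, b, hb, rfl⟩
    unfold diam
    linarith

end Pool.Agent.Q186.SD
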