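import Mathlib

set_option autoImplicit false

/-!
MP_6460d9_an: strong diameter two property of spaces of Lipschitz maps (blueprint, helper186).
Prove `theorem taskX : TaskX.{u}` (or `TaskX.{u, v}`) in `Pool/Agent/Q186/SD/TaskX.lean`.
-/

namespace Pool.Agent.Q186.SD

open Filter Topology Set

universe u v

/-- the annulus with centre `c`, between the radii `dist c z / lam` and `lam * dist c z` -/
def Ann {M : Type u} [MetricSpace M] (lam : ℝ) (c z x : M) : Prop :=
  dist c z / lam < dist x c ∧ dist x c < lam * dist c z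

/-- infinitely many pairwise disjoint annuli.
Unbounded: `c n = o`, `dist o (z n)` growing by the factor `lam ^ 2`. Not uniformly discrete: if `M`
has an accumulation point `u` in its completion, `c n`, `z n` in `M` with `dist (z n) u` very small
and `dist (c n) u` still much smaller; otherwise the centres `u_n` of pairs with distances tending to
zero have no Cauchy subsequence, so a subsequence is `ε`-separated, and the annuli of the late ones
lie in disjoint balls. -/
def TaskAnn : Prop := ∀ (M : Type u) [MetricSpace M],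
  ((∀ R : ℝ, ∃ x y : M, R < dist x y) ∨ (∀ ε : ℝ, 0 < ε → ∃ x y : M, x ≠ y ∧ dist x y < ε)) →
  ∀ lam : ℝ, 1 < lam → ∃ c z : ℕ → M, (∀ n, c n ≠ z n) ∧
    ∀ i j, i ≠ j → ∀ x, ¬ (Ann lam (c i) (z i) x ∧ Ann lam (c j) (z j) x)

/-- flattening and bump. With `s = dist c z`, `r = dist x c`, `κ = exp (-L)` small:
`θ x = min 1 (δ' * max 0 (|log r - log s| - L))` for `x ≠ c`, `θ c = 1`, and
`h x = max 0 (s (1 - 2 κ) - dist x z)`; `|θ x - θ y| * min (r_x, r_y) ≤ δ' dist x y`. If `h x > 0`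
then `2 κ s < r_x < 2 s`; for `y` outside `κ s ≤ r ≤ s / κ` use `h x ≤ r_x - 2 κ s` (inner `y`) and
`r_y ≥ s / κ` (outer `y`). -/
def TaskFlat : Prop := ∀ δ : ℝ, 0 < δ → δ < 1 → ∃ lam : ℝ, 1 < lam ∧
  ∀ (M : Type u) [MetricSpace M] (c z : M), c ≠ z → ∃ θ h : M → ℝ,
    (∀ x, 0 ≤ θ x ∧ θ x ≤ 1) ∧ (∀ x, ¬ Ann lam c z x → θ x = 1 ∧ h x = 0) ∧
    (1 - δ) * dist c z ≤ |h z - h c| ∧
    ∀ (Y : Type v) [NormedAddCommGroup Y] [NormedSpace ℝ Y] (f : M → Y),
      (∀ x y, ‖f x - f y‖ ≤ dist x y) → ∀ e : Y, ‖e‖ = 1 → ∀ x y,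
        ‖(f c + θ x • (f x - f c) + h x • e) - (f c + θ y • (f y - f c) + h y • e)‖ ≤
          (1 + δ) * dist x y

end Pool.Agent.Q186.SD
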