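import Pool.Agent.Q186.SD.Stmts

set_option autoImplicit false

namespace Pool.Agent.Q186.SD

open Filter Topology Set

universe u

private theorem fin_pos {α : Type*} (s : Finset α) (f : α → ℝ) (h : ∀ p ∈ s, 0 < f p) :
    ∃ δ : ℝ, 0 < δ ∧ ∀ p ∈ s, δ ≤ f p := by
  classical
  induction s using Finset.induction_on with
  | empty => exact ⟨1, one_pos, by simp⟩
  | insert a s ha ih =>
    obtain ⟨δ, hδ, hs⟩ := ih fun p hp => h p (Finset.mem_insert_of_mem hp)
    refine ⟨min δ (f a), lt_min hδ (h a (Finset.mem_insert_self _ _)), fun p hp => ?_⟩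
    rcases Finset.mem_insert.1 hp with rfl | hp
    · exact min_le_right _ _
    · exact (min_le_left _ _).trans (hs p hp)

private theorem fin_bd {α : Type*} (s : Finset α) (f : α → ℝ) :
    ∃ D : ℝ, 0 ≤ D ∧ ∀ p ∈ s, f p ≤ D := by
  classical
  induction s using Finset.induction_on with
  | empty => exact ⟨0, le_rfl, by simp⟩
  | insert a s ha ih =>
    obtain ⟨δ, hδ, hs⟩ := ih
    refine ⟨max δ (f a), hδ.trans (le_max_left _ _), fun p hp => ?_⟩
    rcases Finset.mem_insert.1 hp with rfl | hp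
    · exact le_max_right _ _
    · exact (hs p hp).trans (le_max_left _ _)

/-- from one-by-one extension to an infinite family -/
private theorem build {M : Type u} [MetricSpace M] (lam : ℝ) (P : M × M → Prop)
    (hP : ∀ p, P p → p.1 ≠ p.2)
    (h : ∀ s : Finset (M × M), (∀ p ∈ s, P p) → ∃ q, P q ∧ ∀ p ∈ s, ∀ x,
      ¬ (Ann lam p.1 p.2 x ∧ Ann lam q.1 q.2 x)) :
    ∃ c z : ℕ → M, (∀ n, c n ≠ z n) ∧
      ∀ i j, i ≠ j → ∀ x, ¬ (Ann lam (c i) (z i) x ∧ Ann lam (c j) (z j) x) := by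
  obtain ⟨f, hf, hr⟩ := exists_seq_of_forall_finset_exists P
    (fun p q => ∀ x, ¬ (Ann lam p.1 p.2 x ∧ Ann lam q.1 q.2 x)) h
  refine ⟨fun n => (f n).1, fun n => (f n).2, fun n => hP _ (hf n), fun i j hij x hx => ?_⟩
  rcases lt_or_gt_of_ne hij with h1 | h1
  · exact hr i j h1 x hx
  · exact hr j i h1 x hx.symm

private theorem case1 {M : Type u} [MetricSpace M] (hU : ∀ R : ℝ, ∃ x y : M, R < dist x y)
    (lam : ℝ) (hl : 1 < lam) : ∃ c z : ℕ → M, (∀ n, c n ≠ z n) ∧
      ∀ i j, i ≠ j → ∀ x, ¬ (Ann lam (c i) (z i) x ∧ Ann lam (c j) (z j) x) := by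
  obtain ⟨o, -, -⟩ := hU 0
  have hfar : ∀ R : ℝ, ∃ z : M, R < dist o z := by
    intro R
    obtain ⟨x, y, hxy⟩ := hU (2 * R)
    by_contra hcon
    push Not at hcon
    have h1 := dist_triangle_left x y o
    have h2 := hcon x
    have h3 := hcon y
    linarith
  refine build lam (fun p => p.1 = o ∧ p.2 ≠ o) (fun p hp => by
    rw [hp.1]; exact hp.2.symm) ?_
  intro s hs
  obtain ⟨D, hD0, hD⟩ := fin_bd s (fun p => lam ^ 2 * dist o p.2)
  obtain ⟨z, hz⟩ := hfar D
  refine ⟨(o, z), ⟨rfl, ?_⟩, ?_⟩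
  · intro hzo
    have hzo' : z = o := hzo
    rw [hzo', dist_self] at hz
    linarith
  rintro p hp x ⟨⟨-, h1⟩, ⟨h2, -⟩⟩
  have h3 := hD p hp
  rw [(hs p hp).1] at h1
  simp only at h2 h3
  have hl0 : 0 < lam := by linarith
  rw [div_lt_iff₀ hl0] at h2
  nlinarith

private theorem case2b {M : Type u} [MetricSpace M] (x y : ℕ → M) (hne : ∀ n, x n ≠ y n)
    (hd : ∀ ε : ℝ, 0 < ε → ∃ N, ∀ n, N ≤ n → dist (x n) (y n) < ε)
    (ε : ℝ) (hε : 0 < ε) (hsep : ∀ t : Set M, t.Finite → ∃ n, ∀ w ∈ t, ε ≤ dist (x n) w)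
    (lam : ℝ) (hl : 1 < lam) : ∃ c z : ℕ → M, (∀ n, c n ≠ z n) ∧
      ∀ i j, i ≠ j → ∀ x, ¬ (Ann lam (c i) (z i) x ∧ Ann lam (c j) (z j) x) := by
  have hl0 : 0 < lam := by linarith
  obtain ⟨N, hN⟩ := hd (ε / (2 * lam)) (by positivity)
  refine build lam (fun p => ∃ n, N ≤ n ∧ p.1 = x n ∧ p.2 = y n) (fun p hp => by
    obtain ⟨n, -, h1, h2⟩ := hp
    rw [h1, h2]; exact hne n) ?_
  intro s hs
  obtain ⟨n, hn⟩ := hsep ((Prod.fst '' (s : Set (M × M))) ∪ (x '' {j | j < N}))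
    ((s.finite_toSet.image _).union ((Set.finite_lt_nat N).image _))
  have hNn : N ≤ n := by
    by_contra hcon
    have := hn (x n) (Or.inr ⟨n, not_le.1 hcon, rfl⟩)
    rw [dist_self] at this
    linarith
  refine ⟨(x n, y n), ⟨n, hNn, rfl, rfl⟩, ?_⟩
  rintro p hp w ⟨⟨-, h1⟩, ⟨-, h2⟩⟩
  obtain ⟨m, hm, hm1, hm2⟩ := hs p hp
  have h3 := hn p.1 (Or.inl ⟨p, hp, rfl⟩)
  have h4 := hN n hNn
  have h5 := hN m hm
  rw [hm1, hm2] at h1
  rw [hm1] at h3
  simp only at h2
  have h6 := dist_triangle_left (x n) (x m) w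
  rw [lt_div_iff₀ (by positivity)] at h4 h5
  nlinarith

private theorem case2a {M : Type u} [MetricSpace M] (v : UniformSpace.Completion M)
    (hv : ∀ ε : ℝ, 0 < ε → ∃ w : M, 0 < dist (w : UniformSpace.Completion M) v ∧
      dist (w : UniformSpace.Completion M) v < ε)
    (lam : ℝ) (hl : 1 < lam) : ∃ c z : ℕ → M, (∀ n, c n ≠ z n) ∧
      ∀ i j, i ≠ j → ∀ x, ¬ (Ann lam (c i) (z i) x ∧ Ann lam (c j) (z j) x) := by
  have hl0 : 0 < lam := by linarith
  let e : M → ℝ := fun w => dist (w : UniformSpace.Completion M) v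
  have he : ∀ w, e w = dist (w : UniformSpace.Completion M) v := fun _ => rfl
  have t1 : ∀ a b : M, e a ≤ dist a b + e b := by
    intro a b
    have h := dist_triangle (a : UniformSpace.Completion M) (b : UniformSpace.Completion M) v
    rw [UniformSpace.Completion.dist_eq] at h
    exact h
  have t2 : ∀ a b : M, dist a b ≤ e a + e b := by
    intro a b
    have h := dist_triangle_right (a : UniformSpace.Completion M) (b : UniformSpace.Completion M) v
    rw [UniformSpace.Completion.dist_eq] at h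
    exact h
  have e0 : ∀ a, 0 ≤ e a := fun a => dist_nonneg
  refine build lam (fun p => 0 < e p.2 ∧ e p.1 * (4 * lam) ≤ e p.2) (fun p hp h => by
    obtain ⟨h1, h2⟩ := hp
    rw [h] at h2
    nlinarith) ?_
  intro s hs
  obtain ⟨δ, hδ, hδs⟩ := fin_pos s (fun p => e p.2 / (6 * lam ^ 2)) (fun p hp => by
    have := (hs p hp).1
    positivity)
  obtain ⟨z, hz0, hz1⟩ := hv δ hδ
  obtain ⟨c, hc0, hc1⟩ := hv (e z / (4 * lam)) (by rw [he]; positivity)
  rw [← he] at hz0 hz1 hc0 hc1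
  rw [lt_div_iff₀ (by positivity)] at hc1
  refine ⟨(c, z), ⟨hz0, hc1.le⟩, ?_⟩
  rintro p hp x ⟨⟨h1, -⟩, ⟨-, h2⟩⟩
  obtain ⟨hp0, hp1⟩ := hs p hp
  have h3 := hδs p hp
  simp only at h2 h3
  rw [div_lt_iff₀ hl0] at h1
  rw [le_div_iff₀ (by positivity)] at h3
  -- lower bound of `e x` from `p`
  have a1 := t1 p.2 p.1
  rw [dist_comm] at a1
  have a2 := t2 x p.1
  have b1 := t1 x c
  have b2 := t2 c z
  have k1 : e p.2 ≤ 2 * lam * e x := by nlinarith [e0 x, e0 p.1]
  have k2 : e x ≤ 3 * lam * e z := by nlinarith [e0 x, e0 c]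
  nlinarith [mul_pos hl0 hl0, mul_pos (mul_pos hl0 hl0) hz0]

theorem taskAnn : TaskAnn.{u} := by
  intro M _ h lam hl
  rcases h with h | h
  · exact case1 h lam hl
  by_cases hacc : ∃ v : UniformSpace.Completion M, ∀ ε : ℝ, 0 < ε → ∃ w : M,
      0 < dist (w : UniformSpace.Completion M) v ∧ dist (w : UniformSpace.Completion M) v < ε
  · obtain ⟨v, hv⟩ := hacc
    exact case2a v hv lam hl
  have hch : ∀ n : ℕ, ∃ x y : M, x ≠ y ∧ dist x y < 1 / ((n : ℝ) + 1) := fun n =>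
    h _ (by positivity)
  choose x y hne hxy using hch
  have hd : ∀ ε : ℝ, 0 < ε → ∃ N, ∀ n, N ≤ n → dist (x n) (y n) < ε := by
    intro ε hε
    obtain ⟨N, hN⟩ := exists_nat_one_div_lt hε
    refine ⟨N, fun n hn => (hxy n).trans (lt_of_le_of_lt ?_ hN)⟩
    exact one_div_le_one_div_of_le (by positivity) (by exact_mod_cast Nat.succ_le_succ hn)
  by_cases htb : TotallyBounded (Set.range x)
  · exfalso
    have hc : IsCompact (closure ((fun w : M => (w : UniformSpace.Completion M)) '' Set.range x)) :=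
      (htb.image (UniformSpace.Completion.uniformContinuous_coe M)).closure.isCompact_of_isClosed
        isClosed_closure
    obtain ⟨v, -, φ, hφ, hlim⟩ := hc.tendsto_subseq
      (x := fun n => ((x n : M) : UniformSpace.Completion M))
      (fun n => subset_closure ⟨x n, ⟨n, rfl⟩, rfl⟩)
    refine hacc ⟨v, fun ε hε => ?_⟩
    have h1 := (Metric.tendsto_atTop.1 hlim) (ε / 2) (by positivity)
    obtain ⟨N1, hN1⟩ := h1
    obtain ⟨N2, hN2⟩ := hd (ε / 2) (by positivity)
    have h2 := hN1 (max N1 N2) (le_max_left _ _)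
    have h3 := hN2 (φ (max N1 N2)) ((le_max_right _ _).trans (hφ.id_le _))
    set n := φ (max N1 N2) with hn
    simp only [Function.comp] at h2
    by_cases hx : dist ((x n : M) : UniformSpace.Completion M) v = 0
    · refine ⟨y n, ?_, ?_⟩
      · rw [dist_pos]
        intro hy
        rw [← hy, UniformSpace.Completion.dist_eq, dist_eq_zero] at hx
        exact hne n hx
      · have h4 := dist_triangle_left ((y n : M) : UniformSpace.Completion M) v
          ((x n : M) : UniformSpace.Completion M)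
        rw [UniformSpace.Completion.dist_eq] at h4
        linarith
    · exact ⟨x n, lt_of_le_of_ne dist_nonneg (Ne.symm hx), by linarith⟩
  · rw [Metric.totallyBounded_iff] at htb
    push Not at htb
    obtain ⟨ε, hε, ht⟩ := htb
    refine case2b x y hne hd ε hε (fun t htf => ?_) lam hl
    have h1 := ht t htf
    rw [Set.not_subset] at h1
    obtain ⟨a, ⟨n, rfl⟩, hn⟩ := h1
    refine ⟨n, fun w hw => ?_⟩
    by_contra hcon
    exact hn (Set.mem_iUnion₂.2 ⟨w, hw, not_le.1 hcon⟩)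

end Pool.Agent.Q186.SD
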