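import Mathlib
import Pool.Agent.Q186.SD.Stmts

set_option autoImplicit false

namespace Pool.Agent.Q186.SD

universe u v

namespace F227

noncomputable def vt (L d' s r : ℝ) : ℝ :=
  if r = 0 then 1 else min 1 (d' * max 0 (|Real.log r - Real.log s| - L))

theorem vt_lip {L d' s a b : ℝ} (hd : 0 ≤ d') (ha : 0 ≤ a) (hab : a ≤ b) :
    |vt L d' s a - vt L d' s b| * a ≤ d' * (b - a) := by
  rcases ha.eq_or_lt with h0 | h0
  · rw [← h0, mul_zero]
    exact mul_nonneg hd (by linarith)
  · have hb : 0 < b := lt_of_lt_of_le h0 hab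
    have hlog : 0 ≤ Real.log b - Real.log a := sub_nonneg.2 (Real.log_le_log h0 hab)
    unfold vt
    rw [if_neg h0.ne', if_neg hb.ne']
    have h1 : |min 1 (d' * max 0 (|Real.log a - Real.log s| - L)) -
        min 1 (d' * max 0 (|Real.log b - Real.log s| - L))| ≤ d' * (Real.log b - Real.log a) := by
      refine (abs_min_sub_min_le_max _ _ _ _).trans ?_
      rw [sub_self, abs_zero]
      refine max_le (mul_nonneg hd hlog) ?_
      rw [← mul_sub, abs_mul, abs_of_nonneg hd]
      refine mul_le_mul_of_nonneg_left ?_ hd
      refine (abs_max_sub_max_le_max _ _ _ _).trans ?_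
      rw [sub_self, abs_zero]
      refine max_le hlog ?_
      have h2 : |Real.log a - Real.log s| - L - (|Real.log b - Real.log s| - L) =
        |Real.log a - Real.log s| - |Real.log b - Real.log s| := by ring
      rw [h2]
      refine (abs_abs_sub_abs_le _ _).trans ?_
      rw [show Real.log a - Real.log s - (Real.log b - Real.log s) =
        -(Real.log b - Real.log a) by ring, abs_neg, abs_of_nonneg hlog]
    have h3 : Real.log b - Real.log a ≤ b / a - 1 := by
      rw [← Real.log_div hb.ne' h0.ne']
      exact Real.log_le_sub_one_of_pos (div_pos hb h0)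
    calc _ ≤ (d' * (b / a - 1)) * a :=
          mul_le_mul_of_nonneg_right (h1.trans (mul_le_mul_of_nonneg_left h3 hd)) h0.le
      _ = d' * (b - a) := by field_simp

theorem vt_nonneg {L d' s r : ℝ} (hd : 0 ≤ d') : 0 ≤ vt L d' s r := by
  unfold vt
  split_ifs
  · norm_num
  · exact le_min zero_le_one (mul_nonneg hd (le_max_left _ _))

theorem vt_le {L d' s r : ℝ} : vt L d' s r ≤ 1 := by
  unfold vt
  split_ifs
  · exact le_refl _
  · exact min_le_left _ _

theorem vt_zero {κ d' s r : ℝ} (hκ : 0 < κ) (hs : 0 < s) (h1 : κ * s ≤ r) (h2 : r ≤ s / κ) :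
    vt (-Real.log κ) d' s r = 0 := by
  have hr : 0 < r := lt_of_lt_of_le (mul_pos hκ hs) h1
  unfold vt
  rw [if_neg hr.ne']
  have h3 : |Real.log r - Real.log s| ≤ -Real.log κ := by
    have e1 := Real.log_le_log (mul_pos hκ hs) h1
    rw [Real.log_mul hκ.ne' hs.ne'] at e1
    have e2 := Real.log_le_log hr h2
    rw [Real.log_div hs.ne' hκ.ne'] at e2
    rw [abs_le]
    constructor <;> linarith
  rw [max_eq_left (by linarith), mul_zero, min_eq_right zero_le_one]

theorem vt_one {κ d' s r lam : ℝ} (_hκ : 0 < κ) (hd : 0 < d') (hs : 0 < s) (hr : 0 ≤ r)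
    (hlam : lam = Real.exp (-Real.log κ + 1 / d')) (h : r ≤ s / lam ∨ lam * s ≤ r) :
    vt (-Real.log κ) d' s r = 1 := by
  unfold vt
  split_ifs with h0
  · rfl
  · have hr' : 0 < r := lt_of_le_of_ne hr (Ne.symm h0)
    have hl : 0 < lam := by rw [hlam]; exact Real.exp_pos _
    have hll : Real.log lam = -Real.log κ + 1 / d' := by rw [hlam, Real.log_exp]
    have h3 : 1 / d' ≤ |Real.log r - Real.log s| - -Real.log κ := by
      rcases h with h | h
      · have e2 := Real.log_le_log hr' h
        rw [Real.log_div hs.ne' hl.ne', hll] at e2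
        have := neg_abs_le (Real.log r - Real.log s)
        linarith
      · have e2 := Real.log_le_log (mul_pos hl hs) h
        rw [Real.log_mul hl.ne' hs.ne', hll] at e2
        have := le_abs_self (Real.log r - Real.log s)
        linarith
    refine min_eq_left ?_
    calc (1 : ℝ) = d' * (1 / d') := by field_simp
      _ ≤ _ := mul_le_mul_of_nonneg_left (h3.trans (le_max_right _ _)) hd.le

end F227

open F227 in
theorem taskFlat : TaskFlat.{u, v} := by
  intro δ hδ0 hδ1
  set κ : ℝ := δ / 4 with hκ
  set d' : ℝ := δ / 2 with hd'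
  have hκ0 : 0 < κ := by rw [hκ]; linarith
  have hκ1 : κ < 1 / 4 := by rw [hκ]; linarith
  have hd0 : 0 < d' := by rw [hd']; linarith
  set lam : ℝ := Real.exp (-Real.log κ + 1 / d') with hlam
  have hlam1 : 1 / κ ≤ lam := by
    rw [hlam, Real.exp_add, Real.exp_neg, Real.exp_log hκ0, one_div]
    have h1 : (1 : ℝ) ≤ Real.exp (1 / d') := Real.one_le_exp (by positivity)
    have h2 : 0 ≤ κ⁻¹ := by positivity
    exact le_mul_of_one_le_right h2 h1
  have hk4 : 4 < 1 / κ := by
    rw [lt_div_iff₀ hκ0]
    linarith
  refine ⟨lam, by linarith, ?_⟩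
  intro M _ c z hcz
  set s : ℝ := dist c z with hs
  have hs0 : 0 < s := dist_pos.2 hcz
  have hl0 : 0 < lam := by linarith
  have hr0 : ∀ x : M, 0 ≤ dist x c := fun x => dist_nonneg
  -- the basic triangle inequalities
  have ht1 : ∀ x : M, s - dist x c ≤ dist x z := by
    intro x
    have := dist_triangle c x z
    rw [dist_comm c x] at this
    linarith
  have ht2 : ∀ x : M, dist x c ≤ dist x z + s := by
    intro x
    have := dist_triangle x z c
    rw [dist_comm z c] at this
    linarith
  have hdc : ∀ x y : M, dist x c - dist y c ≤ dist x y := by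
    intro x y
    have := dist_triangle x y c
    linarith
  have hdz : ∀ x y : M, dist x z - dist y z ≤ dist x y := by
    intro x y
    have := dist_triangle x y z
    linarith
  have hκs : s / lam ≤ κ * s := by
    rw [div_le_iff₀ hl0]
    have h1 : 1 ≤ κ * lam := by
      have := mul_le_mul_of_nonneg_left hlam1 hκ0.le
      rwa [mul_one_div_cancel hκ0.ne'] at this
    nlinarith
  have hls : s / κ ≤ lam * s := by
    rw [div_eq_mul_one_div, mul_comm]
    exact mul_le_mul_of_nonneg_right hlam1 hs0.le
  have hs4 : 4 * s < s / κ := by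
    rw [div_eq_mul_one_div, mul_comm]
    exact mul_lt_mul_of_pos_left hk4 hs0
  have hκs0 : 0 < κ * s := mul_pos hκ0 hs0
  have hκs1 : κ * s < s / 4 := by nlinarith
  obtain ⟨h, hh⟩ : ∃ h : M → ℝ, h = fun x => max 0 (s * (1 - 2 * κ) - dist x z) := ⟨_, rfl⟩
  obtain ⟨θ, hθ⟩ : ∃ θ : M → ℝ, θ = fun x => vt (-Real.log κ) d' s (dist x c) := ⟨_, rfl⟩
  have hh0 : ∀ x, 0 ≤ h x := fun x => by rw [hh]; exact le_max_left _ _
  have hhin : ∀ x, dist x c ≤ 2 * (κ * s) → h x = 0 := by
    intro x hx
    rw [hh]
    refine max_eq_left ?_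
    have := ht1 x
    nlinarith
  have hhout : ∀ x, 2 * s ≤ dist x c → h x = 0 := by
    intro x hx
    rw [hh]
    refine max_eq_left ?_
    have := ht2 x
    nlinarith
  have hhlip : ∀ x y, |h x - h y| ≤ dist x y := by
    intro x y
    rw [hh]
    refine (abs_max_sub_max_le_max _ _ _ _).trans ?_
    rw [sub_self, abs_zero]
    refine max_le dist_nonneg ?_
    rw [abs_le]
    have h1 := hdz x y
    have h2 := hdz y x
    rw [dist_comm y x] at h2
    constructor <;> linarith
  have hθ0 : ∀ x, 0 ≤ θ x := fun x => by rw [hθ]; exact vt_nonneg hd0.le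
  have hθ1 : ∀ x, θ x ≤ 1 := fun x => by rw [hθ]; exact vt_le
  have hθz : ∀ x, κ * s ≤ dist x c → dist x c ≤ s / κ → θ x = 0 := fun x h1 h2 => by
    rw [hθ]; exact vt_zero hκ0 hs0 h1 h2
  refine ⟨θ, h, fun x => ⟨hθ0 x, hθ1 x⟩, ?_, ?_, ?_⟩
  · intro x hx
    have hx' : dist x c ≤ s / lam ∨ lam * s ≤ dist x c := by
      by_contra hcon
      push Not at hcon
      exact hx ⟨hcon.1, hcon.2⟩
    constructor
    · rw [hθ]
      exact vt_one hκ0 hd0 hs0 (hr0 x) hlam hx'
    · rcases hx' with h1 | h1
      · exact hhin x (by linarith)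
      · exact hhout x (by linarith)
  · have h1 : h c = 0 := hhin c (by rw [dist_self]; linarith)
    have h2 : h z = s * (1 - 2 * κ) := by
      rw [hh]
      simp only [dist_self, sub_zero]
      refine max_eq_right ?_
      nlinarith
    rw [h1, h2, sub_zero]
    refine le_trans ?_ (le_abs_self _)
    nlinarith
  · intro Y _ _ f hf e he
    have hg : ∀ x, ‖f x - f c‖ ≤ dist x c := fun x => hf x c
    have hA : ∀ x y, dist y c ≤ dist x c →
        ‖θ x • (f x - f c) - θ y • (f y - f c)‖ ≤ (1 + d') * dist x y := by
      intro x y hxy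
      have e1 : θ x • (f x - f c) - θ y • (f y - f c) =
          θ x • (f x - f y) + (θ x - θ y) • (f y - f c) := by
        rw [sub_smul, ← sub_add_sub_cancel (f x) (f y) (f c), smul_add]
        abel
      rw [e1]
      refine (norm_add_le _ _).trans ?_
      rw [norm_smul, norm_smul, Real.norm_eq_abs, Real.norm_eq_abs, abs_of_nonneg (hθ0 x)]
      have h1 : θ x * ‖f x - f y‖ ≤ 1 * dist x y :=
        mul_le_mul (hθ1 x) (hf x y) (norm_nonneg _) zero_le_one
      have h2 : |θ x - θ y| * ‖f y - f c‖ ≤ |θ x - θ y| * dist y c :=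
        mul_le_mul_of_nonneg_left (hg y) (abs_nonneg _)
      have h3 : |θ x - θ y| * dist y c ≤ d' * (dist x c - dist y c) := by
        rw [abs_sub_comm, hθ]
        exact vt_lip hd0.le (hr0 y) hxy
      have h4 : d' * (dist x c - dist y c) ≤ d' * dist x y :=
        mul_le_mul_of_nonneg_left (hdc x y) hd0.le
      linarith
    have hA' : ∀ x y, ‖θ x • (f x - f c) - θ y • (f y - f c)‖ ≤ (1 + d') * dist x y := by
      intro x y
      rcases le_total (dist y c) (dist x c) with h1 | h1
      · exact hA x y h1
      · rw [norm_sub_rev, dist_comm x y]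
        exact hA y x h1
    have hF : ∀ x y, (f c + θ x • (f x - f c) + h x • e) - (f c + θ y • (f y - f c) + h y • e) =
        (θ x • (f x - f c) - θ y • (f y - f c)) + (h x - h y) • e := by
      intro x y
      rw [sub_smul]
      abel
    have hB : ∀ x y, 0 < h x → ‖(f c + θ x • (f x - f c) + h x • e) -
        (f c + θ y • (f y - f c) + h y • e)‖ ≤ (1 + δ) * dist x y := by
      intro x y hx
      have hx1 : 2 * (κ * s) < dist x c := by
        by_contra hcon
        push Not at hcon
        rw [hhin x hcon] at hx
        exact lt_irrefl _ hx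
      have hx2 : dist x c < 2 * s := by
        by_contra hcon
        push Not at hcon
        rw [hhout x hcon] at hx
        exact lt_irrefl _ hx
      have hx3 : θ x = 0 := hθz x (by linarith) (by linarith)
      have hx4 : h x = s * (1 - 2 * κ) - dist x z := by
        have hx' : 0 < max 0 (s * (1 - 2 * κ) - dist x z) := by
          rw [hh] at hx
          exact hx
        rw [hh]
        refine max_eq_right ?_
        by_contra hcon
        push Not at hcon
        rw [max_eq_left hcon.le] at hx'
        exact lt_irrefl _ hx'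
      have hn : ‖(h x - h y) • e‖ = |h x - h y| := by
        rw [norm_smul, he, mul_one, Real.norm_eq_abs]
      rw [hF]
      rcases lt_or_ge (dist y c) (κ * s) with hy | hy
      · -- inner
        have hy0 : h y = 0 := hhin y (by linarith)
        refine (norm_add_le _ _).trans ?_
        rw [hn, hx3, zero_smul, zero_sub, norm_neg, norm_smul, Real.norm_eq_abs,
          abs_of_nonneg (hθ0 y), hy0, sub_zero, abs_of_pos hx]
        have h1 : θ y * ‖f y - f c‖ ≤ 1 * dist y c :=
          mul_le_mul (hθ1 y) (hg y) (norm_nonneg _) zero_le_one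
        have h2 := ht1 x
        have h3 := hdc x y
        have h4 : 0 ≤ δ * dist x y := mul_nonneg hδ0.le dist_nonneg
        nlinarith
      · rcases le_or_gt (dist y c) (s / κ) with hy2 | hy2
        · rw [hx3, hθz y hy hy2, zero_smul, zero_smul, sub_zero, zero_add, hn]
          have h3 := hhlip x y
          have h4 : 0 ≤ δ * dist x y := mul_nonneg hδ0.le dist_nonneg
          linarith
        · have hy0 : h y = 0 := hhout y (by linarith)
          refine (norm_add_le _ _).trans ?_
          rw [hn, hy0, sub_zero, abs_of_pos hx]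
          have h1 := hA' x y
          have h2 : h x ≤ s := by
            rw [hx4]
            have : 0 ≤ dist x z := dist_nonneg
            nlinarith
          have h3 : s ≤ κ * dist y c := by
            have := hy2.le
            rw [div_le_iff₀ hκ0] at this
            linarith
          have h5 := hdc y x
          rw [dist_comm y x] at h5
          -- dist y c ≤ dist x y + 2 s ≤ dist x y + dist y c / 2
          have h6 : dist y c ≤ 2 * dist x y := by
            have : 2 * s ≤ dist y c / 2 := by linarith
            linarith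
          have h7 : s ≤ 2 * κ * dist x y := by nlinarith
          have h8 : d' * dist x y + 2 * κ * dist x y = δ * dist x y := by
            rw [hκ, hd']; ring
          linarith
    intro x y
    rcases (hh0 x).eq_or_lt with h1 | h1
    · rcases (hh0 y).eq_or_lt with h2 | h2
      · rw [hF, ← h1, ← h2, sub_self, zero_smul, add_zero]
        refine (hA' x y).trans ?_
        refine mul_le_mul_of_nonneg_right ?_ dist_nonneg
        rw [hd']; linarith
      · rw [norm_sub_rev, dist_comm x y]
        exact hB y x h2
    · exact hB x y h1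

end Pool.Agent.Q186.SD
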